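import Mathlib
import Pool.Agent.H840R2.LJQ

set_option autoImplicit false

namespace Pool.Agent.Results.MP_10a7b3_an.DiscontinuousField

open Metric Set Filter Topology MeasureTheory

/-- `ℂ²` with its Euclidean (Hermitian) structure. -/
abbrev C2 := EuclideanSpace ℂ (Fin 2)

/-- The open Euclidean unit ball of `ℂ²`. -/
abbrev B2 : Set C2 := ball 0 1

/-- The class `𝓜`: holomorphic `h` on the ball with `h 0 = 0`, `Dh(0) = id` and
`Re ⟨h z, z⟩ > 0` for `z ≠ 0`. (Maps are total functions; only their values on the ball matter.) -/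
def ClassM : Set (C2 → C2) :=
  {h | DifferentiableOn ℂ h B2 ∧ h 0 = 0 ∧ fderiv ℂ h 0 = ContinuousLinearMap.id ℂ C2 ∧
    ∀ z ∈ B2, z ≠ 0 → 0 < (inner ℂ z (h z) : ℂ).re}

/-- The class `-𝓜`. -/
def ClassNegM : Set (C2 → C2) := {g | (fun z => -g z) ∈ ClassM}

/-- A family of maps is normal on the unit ball if every sequence in it has a subsequence which
converges locally uniformly on the ball. -/
def IsNormalFamily (𝓕 : Set (C2 → C2)) : Prop :=
  ∀ g : ℕ → C2 → C2, (∀ k, g k ∈ 𝓕) → ∃ φ : ℕ → ℕ, StrictMono φ ∧ ∃ G : C2 → C2,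
    TendstoLocallyUniformlyOn (fun k => g (φ k)) G atTop B2

/-- A normal Loewner chain `(F t)`, `t ≥ 0`. -/
structure IsNormalLoewnerChain (F : ℝ → C2 → C2) : Prop where
  holo : ∀ t, 0 ≤ t → DifferentiableOn ℂ (F t) B2
  inj : ∀ t, 0 ≤ t → InjOn (F t) B2
  zero : ∀ t, 0 ≤ t → F t 0 = 0
  deriv : ∀ t, 0 ≤ t →
    fderiv ℂ (F t) 0 = ((Real.exp t : ℝ) : ℂ) • ContinuousLinearMap.id ℂ C2
  sub : ∀ s t, 0 ≤ s → s ≤ t → F s '' B2 ⊆ F t '' B2
  normal : IsNormalFamily {g | ∃ t : ℝ, 0 ≤ t ∧ g = fun z => ((Real.exp (-t) : ℝ) : ℂ) • F t z}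

/-- The class `S⁰(𝔹²)`. -/
def ClassS0 : Set (C2 → C2) :=
  {f | DifferentiableOn ℂ f B2 ∧ InjOn f B2 ∧ f 0 = 0 ∧
    fderiv ℂ f 0 = ContinuousLinearMap.id ℂ C2 ∧
    ∃ F : ℝ → C2 → C2, IsNormalLoewnerChain F ∧ ∀ z ∈ B2, F 0 z = f z}

/-- A continuous linear functional on `Hol(𝔹², ℂ²)` (continuous for locally uniform
convergence, i.e. bounded by a multiple of the supremum over some compact subset of the ball). -/
structure IsContLinFunctional (L : (C2 → C2) → ℂ) : Prop where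
  linear : ∀ g₁ g₂ : C2 → C2, DifferentiableOn ℂ g₁ B2 → DifferentiableOn ℂ g₂ B2 →
    ∀ a b : ℂ, L (a • g₁ + b • g₂) = a * L g₁ + b * L g₂
  bounded : ∃ K : Set C2, K ⊆ B2 ∧ IsCompact K ∧ ∃ C : ℝ, ∀ g : C2 → C2,
    DifferentiableOn ℂ g B2 → ∀ M : ℝ, (∀ z ∈ K, ‖g z‖ ≤ M) → ‖L g‖ ≤ C * M

/-- `f` is a support point of the family `S`. -/
def IsSupportPoint (f : C2 → C2) (S : Set (C2 → C2)) : Prop :=
  f ∈ S ∧ ∃ L : (C2 → C2) → ℂ, IsContLinFunctional L ∧ (∃ g₁ ∈ S, ∃ g₂ ∈ S, L g₁ ≠ L g₂) ∧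
    ∀ g ∈ S, (L g).re ≤ (L f).re

/-- A Herglotz vector field associated with `𝓜` (`G t z` is the value at the point `z` and the
time `t`). -/
structure IsHerglotzField (G : ℝ → C2 → C2) : Prop where
  meas : ∀ z ∈ B2, AEStronglyMeasurable (fun t => G t z) (volume.restrict (Ici 0))
  mem : ∀ᵐ t : ℝ, 0 ≤ t → G t ∈ ClassNegM

/-- `G` generates the chain `F`: `∂F_t(z)/∂t = -d(F_t)_z G(z,t)` for every `z` and a.e. `t ≥ 0`. -/
def Generates (G : ℝ → C2 → C2) (F : ℝ → C2 → C2) : Prop :=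
  ∀ z ∈ B2, ∀ᵐ t : ℝ, 0 ≤ t → HasDerivAt (fun s => F s z) (-(fderiv ℂ (F t) z (G t z))) t

/-- `t ↦ G t` is continuous on `[0, ∞)` for the topology of locally uniform convergence on the
ball. -/
def IsContinuousField (G : ℝ → C2 → C2) : Prop :=
  ∀ t₀ : ℝ, 0 ≤ t₀ → TendstoLocallyUniformlyOn G (G t₀) (𝓝[Ici 0] t₀) B2

open Pool.Agent.Helper540 Pool.Agent.H840R2.LJ

theorem cara_iff {h : C2 → C2} : h ∈ ClassM ↔ Cara h :=
  ⟨fun ⟨a, b, c, d⟩ => ⟨a, b, c, d⟩, fun ⟨a, b, c, d⟩ => ⟨a, b, c, d⟩⟩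

/-- Normal chains are locally bounded after rescaling. -/
theorem lc_of_normal {F : ℝ → C2 → C2} (hF : IsNormalLoewnerChain F) : LC F := by
  refine ⟨hF.holo, hF.inj, hF.zero, hF.deriv, hF.sub, fun r hr => ?_⟩
  by_contra hcon
  push Not at hcon
  have hex : ∀ n : ℕ, ∃ t : ℝ, 0 ≤ t ∧ ∃ z : C2, ‖z‖ ≤ r ∧ (n : ℝ) * Real.exp t < ‖F t z‖ := by
    intro n
    obtain ⟨t, ht, z, hz, h⟩ := hcon n
    exact ⟨t, ht, z, hz, h⟩
  choose t ht z hz htz using hex
  obtain ⟨φ, hφ, G, hG⟩ := hF.normal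
    (fun n z => ((Real.exp (-(t n)) : ℝ) : ℂ) • F (t n) z) (fun n => ⟨t n, ht n, rfl⟩)
  have hcl : closedBall (0 : C2) r ⊆ ball 0 1 := closedBall_subset_ball hr
  have hcont : ContinuousOn G (ball 0 1) := by
    apply hG.continuousOn
    apply Frequently.of_forall
    intro n
    exact ((hF.holo _ (ht (φ n))).continuousOn).const_smul ((Real.exp (-(t (φ n))) : ℝ) : ℂ)
  obtain ⟨C, hC⟩ := (isCompact_closedBall (0 : C2) r).exists_bound_of_continuousOn
    (hcont.mono hcl)
  have hun : TendstoUniformlyOn (fun n z => ((Real.exp (-(t (φ n))) : ℝ) : ℂ) • F (t (φ n)) z) G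
      atTop (closedBall (0 : C2) r) :=
    (tendstoLocallyUniformlyOn_iff_forall_isCompact isOpen_ball).1 hG _ hcl
      (isCompact_closedBall _ _)
  rw [Metric.tendstoUniformlyOn_iff] at hun
  obtain ⟨n, hn1, hn2⟩ := ((hun 1 one_pos).and (eventually_ge_atTop ⌈C + 1⌉₊)).exists
  have h1 := hn1 (z (φ n)) (by simpa using hz (φ n))
  have h2 := hC (z (φ n)) (by simpa using hz (φ n))
  have h3 : ‖((Real.exp (-(t (φ n))) : ℝ) : ℂ) • F (t (φ n)) (z (φ n))‖ < C + 1 := by
    rw [dist_comm, dist_eq_norm] at h1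
    calc _ = ‖(((Real.exp (-(t (φ n))) : ℝ) : ℂ) • F (t (φ n)) (z (φ n)) - G (z (φ n))) +
          G (z (φ n))‖ := by rw [sub_add_cancel]
      _ ≤ _ := norm_add_le _ _
      _ < C + 1 := by linarith
  rw [norm_smul, Complex.norm_real, Real.norm_of_nonneg (Real.exp_pos _).le] at h3
  have h4 := htz (φ n)
  have h5 : Real.exp (-(t (φ n))) * Real.exp (t (φ n)) = 1 := by rw [← Real.exp_add]; simp
  have h6 : ((φ n : ℕ) : ℝ) < Real.exp (-(t (φ n))) * ‖F (t (φ n)) (z (φ n))‖ := by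
    calc ((φ n : ℕ) : ℝ) = Real.exp (-(t (φ n))) * (((φ n : ℕ) : ℝ) * Real.exp (t (φ n))) := by
          linear_combination (-((φ n : ℕ) : ℝ)) * h5
      _ < _ := by
          have := Real.exp_pos (-(t (φ n)))
          gcongr
  have h7 : C + 1 ≤ ((φ n : ℕ) : ℝ) := by
    calc C + 1 ≤ (⌈C + 1⌉₊ : ℝ) := Nat.le_ceil _
      _ ≤ (n : ℝ) := by exact_mod_cast hn2
      _ ≤ ((φ n : ℕ) : ℝ) := by exact_mod_cast hφ.id_le n
  linarith

theorem normal_of_lc {F : ℝ → C2 → C2} (hF : LC F) : IsNormalLoewnerChain F := by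
  refine ⟨hF.holo, hF.inj, hF.zero, hF.deriv, hF.sub, ?_⟩
  intro g hg
  choose t ht hgt using hg
  apply montel_gen
  · intro n
    rw [hgt n]
    exact (hF.holo _ (ht n)).const_smul ((Real.exp (-(t n)) : ℝ) : ℂ)
  · intro r hr
    obtain ⟨M, hM⟩ := hF.bdd r hr
    refine ⟨|M|, abs_nonneg _, fun n z hz => ?_⟩
    rw [hgt n]
    simp only
    rw [norm_smul, Complex.norm_real, Real.norm_of_nonneg (Real.exp_pos _).le]
    have h5 : Real.exp (-(t n)) * Real.exp (t n) = 1 := by rw [← Real.exp_add]; simp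
    calc Real.exp (-(t n)) * ‖F (t n) z‖ ≤ Real.exp (-(t n)) * (M * Real.exp (t n)) := by
          have := hM _ (ht n) z hz
          gcongr
      _ = M * (Real.exp (-(t n)) * Real.exp (t n)) := by ring
      _ = M := by rw [h5, mul_one]
      _ ≤ |M| := le_abs_self M

/-- The level one functional `f ↦ [z₂²] f₁`. -/
noncomputable def L1 (f : C2 → C2) : ℂ := (qf f (pt 0 1)) 0

theorem L1_functional : IsContLinFunctional L1 := by
  have hsl : ∀ g : C2 → C2, DifferentiableOn ℂ g B2 →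
      ContDiffAt ℂ 2 (fun ζ : ℂ => g (ζ • pt 0 1)) 0 := fun g hg =>
    contDiffAt_of_ball one_pos (slice_diff hg norm_pt_zero_one.le) 2
  refine ⟨?_, closedBall 0 (1 / 2), closedBall_subset_ball (by norm_num),
    isCompact_closedBall _ _, 4, ?_⟩
  · intro g₁ g₂ h₁ h₂ a b
    have d1 := hsl g₁ h₁
    have d2 := hsl g₂ h₂
    have e1 : tc 2 (fun ζ : ℂ => a • g₁ (ζ • pt 0 1) + b • g₂ (ζ • pt 0 1)) =
        a • tc 2 (fun ζ : ℂ => g₁ (ζ • pt 0 1)) + b • tc 2 (fun ζ : ℂ => g₂ (ζ • pt 0 1)) := by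
      have c1 := tc_clm (a • ContinuousLinearMap.id ℂ C2) 2 d1
      have c2 := tc_clm (b • ContinuousLinearMap.id ℂ C2) 2 d2
      simp only [smul_apply, ContinuousLinearMap.id_apply] at c1 c2
      rw [← c1, ← c2]
      exact tc_add 2 (d1.const_smul a) (d2.const_smul b)
    show (tc 2 (fun ζ : ℂ => (a • g₁ + b • g₂) (ζ • pt 0 1))) 0 = _
    have e2 : (fun ζ : ℂ => (a • g₁ + b • g₂) (ζ • pt 0 1)) =
        fun ζ : ℂ => a • g₁ (ζ • pt 0 1) + b • g₂ (ζ • pt 0 1) := rfl
    rw [e2, e1]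
    simp [L1, qf]
  · intro g hg M hM
    have h1 := norm_tcn_le hg norm_pt_zero_one.le (C := M) (fun z hz => hM z (by simpa using hz)) 2
    have h2 : ‖L1 g‖ ≤ ‖qf g (pt 0 1)‖ := norm_apply_le_two _ _
    calc _ ≤ _ := h2
      _ ≤ _ := h1
      _ = 4 * M := by ring

/-- The coefficients of maps that agree on the ball agree. -/
theorem qf_congr {f g : C2 → C2} (h : ∀ z ∈ B2, f z = g z) {u : C2} (hu : ‖u‖ ≤ 1) :
    qf f u = qf g u := by
  apply tc_congr
  filter_upwards [ball_mem_nhds (0 : ℂ) one_pos] with ζ hζ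
  exact h _ (slice_mem hu hζ)

theorem tc3_congr {f g : C2 → C2} (h : ∀ z ∈ B2, f z = g z) {u : C2} (hu : ‖u‖ ≤ 1) :
    tc 3 (fun ζ : ℂ => f (ζ • u)) = tc 3 (fun ζ : ℂ => g (ζ • u)) := by
  apply tc_congr
  filter_upwards [ball_mem_nhds (0 : ℂ) one_pos] with ζ hζ
  exact h _ (slice_mem hu hζ)

theorem mf_congr {f g : C2 → C2} (hf : DifferentiableOn ℂ f B2) (hg : DifferentiableOn ℂ g B2)
    (h : ∀ z ∈ B2, f z = g z) : mf f = mf g := by
  rw [mf_eq hf, mf_eq hg, qf_congr h norm_pt_half, qf_congr h norm_pt_one_zero.le,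
    qf_congr h norm_pt_zero_one.le]

/-- The trivial chain `e^t z`. -/
theorem trivial_chain : LC (fun t (z : C2) => ((Real.exp t : ℝ) : ℂ) • z) := by
  have hne : ∀ t : ℝ, ((Real.exp t : ℝ) : ℂ) ≠ 0 := fun t => by
    exact_mod_cast (Real.exp_pos t).ne'
  refine ⟨?_, ?_, ?_, ?_, ?_, ?_⟩
  · intro t _
    exact differentiableOn_id.const_smul ((Real.exp t : ℝ) : ℂ)
  · intro t _ z _ w _ h
    exact smul_right_injective _ (hne t) h
  · intro t _
    simp
  · intro t _
    exact ((hasFDerivAt_id (𝕜 := ℂ) (0 : C2)).const_smul ((Real.exp t : ℝ) : ℂ)).fderiv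
  · intro s t _ hst
    rintro _ ⟨z, hz, rfl⟩
    refine ⟨((Real.exp (s - t) : ℝ) : ℂ) • z, ?_, ?_⟩
    · rw [mem_ball_zero_iff] at *
      rw [norm_smul, Complex.norm_real, Real.norm_of_nonneg (Real.exp_pos _).le]
      have h1 : Real.exp (s - t) ≤ 1 := by rw [Real.exp_le_one_iff]; linarith
      calc Real.exp (s - t) * ‖z‖ ≤ 1 * ‖z‖ := by gcongr
        _ < 1 := by linarith
    · simp only
      rw [smul_smul, ← Complex.ofReal_mul, ← Real.exp_add]
      congr 3
      ring
  · intro r hr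
    refine ⟨1, fun t _ z hz => ?_⟩
    rw [norm_smul, Complex.norm_real, Real.norm_of_nonneg (Real.exp_pos _).le]
    have h1 := Real.exp_pos t
    nlinarith

theorem L1_id : L1 (fun z : C2 => z) = 0 := by
  have h1 : (fun ζ : ℂ => (fun z : C2 => z) (ζ • pt 0 1)) = fun ζ : ℂ => ζ ^ 1 • pt 0 1 := by
    ext1 ζ
    simp
  rw [L1, qf, h1, tc_pow_smul, if_neg (by norm_num)]
  rfl

/-- **Result (negative answer to Q1).** There is a support point `f` of `S⁰(𝔹²)` such that no
Herglotz vector field `G` which is continuous in `t` generates a normal Loewner chain starting at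
`f`. (Some Herglotz vector field, a piecewise constant one with two values, does generate such a
chain.) -/
theorem result : ∃ f : C2 → C2, IsSupportPoint f ClassS0 ∧
    (∃ G F : ℝ → C2 → C2, IsHerglotzField G ∧ IsNormalLoewnerChain F ∧ Generates G F ∧
      ∀ z ∈ B2, F 0 z = f z) ∧
    ∀ G F : ℝ → C2 → C2, IsHerglotzField G → IsNormalLoewnerChain F → Generates G F →
      (∀ z ∈ B2, F 0 z = f z) → ¬ IsContinuousField G := by
  obtain ⟨hp, fp, hmax⟩ := exists_max
  set M := (yc hp).re with hM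
  have hM0 : 0 < M := by
    have := hmax hst hst_face
    rw [hst_yc] at this
    have h2 : ((1 : ℂ) / 4).re = 1 / 4 := by norm_num
    rw [h2] at this
    linarith
  set hm := rot hp with hhm
  have fm : Face hm := rot_face fp
  have ym : (yc hm).re = -M := by rw [hhm, rot_yc fp.cara, Complex.neg_re]
  have hbd : ∀ h, Face h → (yc h).re ≤ M ∧ -M ≤ (yc h).re := by
    intro h hh
    refine ⟨hmax h hh, ?_⟩
    have := hmax (rot h) (rot_face hh)
    rw [rot_yc hh.cara, Complex.neg_re] at this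
    linarith
  have hT := logT
  obtain ⟨F0, hF0, g1, g2⟩ := exists_chain fp.cara fm.cara hT.le
  have hgen0 : ∀ᵐ t : ℝ, 0 < t → Face (if t < Real.log 2 then hp else hm) ∧
      GenAt F0 (if t < Real.log 2 then hp else hm) t := by
    have hne : ∀ᵐ t : ℝ, t ≠ Real.log 2 := by
      rw [ae_iff]
      simp
    filter_upwards [hne] with t ht ht0
    rcases lt_or_gt_of_ne ht with h | h
    · rw [if_pos h]
      exact ⟨fp, g1 t ht0 h⟩
    · rw [if_neg (not_lt.2 h.le)]
      exact ⟨fm, g2 t h⟩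
  have har : ar F0 0 = 3 * Real.sqrt 3 / 2 := level_one_eq hF0 hgen0
  have hW : Real.sqrt 3 / 2 * M ≤ Wf F0 0 := level_two_ge hF0 fp fm rfl ym
    (fun t h1 h2 => g1 t h1 h2) (fun t h => g2 t h)
  set f := F0 0 with hf
  have hfd : fderiv ℂ f 0 = ContinuousLinearMap.id ℂ C2 := by
    have := hF0.deriv 0 le_rfl
    rw [Real.exp_zero, Complex.ofReal_one, one_smul] at this
    exact this
  have hfS : f ∈ ClassS0 := ⟨hF0.holo 0 le_rfl, hF0.inj 0 le_rfl, hF0.zero 0 le_rfl, hfd,
    F0, normal_of_lc hF0, fun z _ => rfl⟩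
  have hidS : (fun z : C2 => z) ∈ ClassS0 := by
    refine ⟨differentiableOn_id, fun z _ w _ h => h, rfl, ?_, _, normal_of_lc trivial_chain,
      fun z _ => ?_⟩
    · exact (hasFDerivAt_id (𝕜 := ℂ) (0 : C2)).fderiv
    · simp
  refine ⟨f, ⟨hfS, L1, L1_functional, ⟨f, hfS, _, hidS, ?_⟩, ?_⟩, ?_, ?_⟩
  · -- non-constant
    rw [L1_id]
    intro h
    have h1 : (L1 f).re = 3 * Real.sqrt 3 / 2 := har
    rw [h, Complex.zero_re] at h1
    have : 0 < Real.sqrt 3 := Real.sqrt_pos.2 (by norm_num)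
    linarith
  · -- maximal
    intro g hg
    obtain ⟨-, -, -, -, F, hF, hFg⟩ := hg
    have h1 := ar_le (lc_of_normal hF)
    have h2 : L1 g = (qf (F 0) (pt 0 1)) 0 := by
      rw [L1, qf_congr (fun z hz => (hFg z hz).symm) norm_pt_zero_one.le]
    have h3 : (L1 f).re = 3 * Real.sqrt 3 / 2 := har
    rw [h2, h3]
    exact h1
  · -- existence of a generating field
    refine ⟨fun t z => -(if t < Real.log 2 then hp else hm) z, F0, ⟨?_, ?_⟩, normal_of_lc hF0, ?_,
      fun z _ => rfl⟩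
    · intro z _
      have h1 : Measurable (fun t : ℝ => -(if t < Real.log 2 then hp else hm) z) := by
        have e : (fun t : ℝ => -(if t < Real.log 2 then hp else hm) z) =
            fun t : ℝ => if t < Real.log 2 then -hp z else -hm z := by
          ext1 t
          split_ifs <;> rfl
        rw [e]
        exact Measurable.ite measurableSet_Iio measurable_const measurable_const
      exact h1.aestronglyMeasurable
    · apply Eventually.of_forall
      intro t _
      show (fun z => - -(if t < Real.log 2 then hp else hm) z) ∈ ClassM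
      simp only [neg_neg]
      split_ifs
      · exact cara_iff.2 fp.cara
      · exact cara_iff.2 fm.cara
    · intro z hz
      have hne : ∀ᵐ t : ℝ, t ≠ 0 := by
        rw [ae_iff]
        simp
      filter_upwards [hgen0, hne] with t ht ht0 ht1
      have h1 := (ht (lt_of_le_of_ne ht1 (Ne.symm ht0))).2 z hz
      rw [map_neg, neg_neg]
      exact h1
  · -- every generating field is discontinuous
    intro G F hG hF hgen hF0f hcont
    have hFL := lc_of_normal hF
    set H : ℝ → C2 → C2 := fun t z => -G t z with hH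
    have hHgen : ∀ᵐ t : ℝ, 0 < t → Cara (H t) ∧ GenAt F (H t) t := by
      set d : ℕ → C2 := TopologicalSpace.denseSeq C2 with hd
      have h1 : ∀ᵐ t : ℝ, ∀ k : ℕ, d k ∈ B2 → 0 ≤ t →
          HasDerivAt (fun s => F s (d k)) (-(fderiv ℂ (F t) (d k) (G t (d k)))) t := by
        rw [ae_all_iff]
        intro k
        by_cases hk : d k ∈ B2
        · filter_upwards [hgen _ hk] with t ht _ ht0 using ht ht0
        · exact Eventually.of_forall fun t h => absurd h hk
      filter_upwards [h1, hG.mem] with t ht hGt ht0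
      have hC : Cara (H t) := cara_iff.1 (hGt ht0.le)
      refine ⟨hC, ?_⟩
      apply deriv_everywhere hFL ht0 (D := range d) (TopologicalSpace.denseRange_denseSeq C2)
        (gen_diff (hFL.holo t ht0.le) hC.diff).continuousOn
      rintro _ ⟨k, rfl⟩ hk
      have h2 := ht k hk ht0.le
      rw [hH]
      simp only
      rw [map_neg]
      exact h2
    -- level one
    have e_ar : ar F 0 = 3 * Real.sqrt 3 / 2 := by
      rw [← har, ar, ar, qf_congr hF0f norm_pt_zero_one.le]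
    have hface := level_one hFL hHgen e_ar.ge
    have hgenF : ∀ᵐ t : ℝ, 0 < t → Face (H t) ∧ GenAt F (H t) t := by
      filter_upwards [hHgen, hface] with t h1 h2 ht
      exact ⟨h2 ht, (h1 ht).2⟩
    -- level two
    have e_W : Wf F 0 = Wf F0 0 := by
      have k1 : gr F 0 = gr F0 0 := by
        rw [gr, gr, tc3_congr hF0f norm_pt_zero_one.le]
      have k2 : yr F 0 = yr F0 0 := by
        rw [yr, yr, mf_congr (hFL.holo 0 le_rfl) (hF0.holo 0 le_rfl) hF0f]
      rw [Wf, Wf, k1, k2]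
    have key := level_two hFL hgenF hbd (by rw [e_W]; exact hW)
    -- contradiction with continuity at `log 2`
    have hc := hcont (Real.log 2) hT.le
    rw [nhdsWithin_eq_nhds.2 (Ici_mem_nhds hT)] at hc
    have hcl : closedBall (0 : C2) (1 / 2) ⊆ ball 0 1 := closedBall_subset_ball (by norm_num)
    have hun := (tendstoLocallyUniformlyOn_iff_forall_isCompact isOpen_ball).1 hc _ hcl
      (isCompact_closedBall _ _)
    rw [Metric.tendstoUniformlyOn_iff] at hun
    have hev := hun (M / 48) (by positivity)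
    obtain ⟨δ, hδ, hball⟩ := Metric.eventually_nhds_iff.1 hev
    have hfind : ∀ a b : ℝ, a < b → ∃ t ∈ Ioo a b,
        (0 < t → Face (H t) ∧ GenAt F (H t) t) ∧
        ((0 < t → t < Real.log 2 → (yc (H t)).re = M) ∧ (Real.log 2 < t → (yc (H t)).re = -M)) := by
      intro a b hab
      have hμ : volume (Ioo a b) ≠ 0 := by
        rw [Real.volume_Ioo]
        simp [hab]
      exact Measure.exists_mem_of_measure_ne_zero_of_ae hμ (ae_restrict_of_ae (hgenF.and key))
    obtain ⟨t1, ht1, hA1, hB1⟩ := hfind (max 0 (Real.log 2 - δ)) (Real.log 2)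
      (max_lt hT (by linarith))
    obtain ⟨t2, ht2, hA2, hB2⟩ := hfind (Real.log 2) (Real.log 2 + δ) (by linarith)
    have ht10 : 0 < t1 := (le_max_left _ _).trans_lt ht1.1
    have ht1δ : Real.log 2 - δ < t1 := (le_max_right _ _).trans_lt ht1.1
    have ht20 : 0 < t2 := hT.trans ht2.1
    have y1 := hB1.1 ht10 ht1.2
    have y2 := hB2.2 ht2.1
    have c1 := hball (y := t1) (by
      rw [Real.dist_eq, abs_lt]; constructor <;> linarith [ht1.2])
    have c2 := hball (y := t2) (by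
      rw [Real.dist_eq, abs_lt]; constructor <;> linarith [ht2.1, ht2.2])
    have f1 := (hA1 ht10).1
    have f2 := (hA2 ht20).1
    have hclose := mf_close f1.cara.diff f2.cara.diff (C := M / 24 * (47 / 48) + M / 24 / 48)
      (fun z hz => by
        have k1 := c1 z (by simpa using hz)
        have k2 := c2 z (by simpa using hz)
        rw [dist_eq_norm] at k1 k2
        have e : H t1 z - H t2 z = (G (Real.log 2) z - G t1 z) - (G (Real.log 2) z - G t2 z) := by
          simp only [hH]; abel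
        rw [e]
        refine (norm_sub_le _ _).trans ?_
        linarith)
    have hy1 : (yc (H t1)).re = ((mf (H t1)) 1).re := by rw [yc, bco_one_eq f1.cara.diff]
    have hy2 : (yc (H t2)).re = ((mf (H t2)) 1).re := by rw [yc, bco_one_eq f2.cara.diff]
    have hd := (re_co_sub (mf (H t1)) (mf (H t2)) 1).trans hclose
    rw [← hy1, ← hy2, y1, y2] at hd
    have h3 : |M - -M| = 2 * M := by
      rw [sub_neg_eq_add, abs_of_pos (by linarith)]; ring
    rw [h3] at hd
    linarith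

end Pool.Agent.Results.MP_10a7b3_an.DiscontinuousField
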